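import Pool.Agent.H36AC.Main

/-!
# A zero-one law for the smallest subtorsor: de Rham-Betti classes with algebraic coefficients

Let `Y` be a smooth projective variety over the field `ℚ̄` of algebraic numbers. The smallest
subtorsor `Ω` (defined over `ℚ̄`) of the torsor of isomorphisms between Betti and de Rham cohomology
which contains the comparison isomorphism has dimension at least the transcendence degree of the
periods of `Y`. It need not be a torsor of a group over `ℚ`. The classes on the powers of `Y` given by
it are the de Rham-Betti classes with algebraic coefficients: the elements `α` of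
`H^{2 j}(Y ^ n, ℚ) ⊗ ℚ̄` such that `(2 π i) ^ j α` lies in `H^{2 j}_dR(Y ^ n / ℚ̄)`. If the Hodge classes
on the powers of `Y` are motivated and the transcendence degree of the periods of `Y` is the dimension
of the Mumford-Tate group, then `Ω` is the torsor of the Mumford-Tate group and the de Rham-Betti
classes with algebraic coefficients are the combinations of Hodge classes. Let

* `q n` be the dimension over `ℚ̄` of the space spanned by the de Rham-Betti classes with algebraic
  coefficients on the product of `n + 1` copies of `Y`,
* `b n` the dimension over `ℚ` of the space spanned by the rational classes which are Hodge classes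
  and de Rham-Betti classes, and `m n` the dimension of the space of motivated classes.

**Theorem.** Let `Y` be any smooth projective variety over `ℚ̄` (with nonzero cohomology).

1. Either all de Rham-Betti classes with algebraic coefficients on all powers of `Y` are combinations
   (with algebraic coefficients) of rational classes which are Hodge classes and de Rham-Betti
   classes, so that `q n = b n` for all `n`, or the proportion `b n / q n` tends to zero.
2. The first alternative holds if the proportion `m n / q n` of the motivated (for example of the
   algebraic) classes does not tend to zero.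
3. If the Hodge classes on the powers of `Y` are motivated (this is so for abelian varieties, by a
   theorem of André), then all de Rham-Betti classes with algebraic coefficients on all powers of `Y`
   are combinations of motivated classes if and only if `m n / q n` does not tend to zero.

The proof: let `τ` be an automorphism of `ℂ` and `σ` one which fixes the algebraic numbers. The maps
`s_B(τ) s_dR(σ) s_B(τ)⁻¹`, where `s_B` and `s_dR` denote the semilinear actions which fix the rational
classes and the algebraic de Rham classes, are compatible with all operations. The classes with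
algebraic coefficients which have finitely many images under these maps (up to Tate twists) are those
all of whose conjugates are de Rham-Betti classes with algebraic coefficients. By descent these are
the combinations of rational de Rham-Betti classes. If `b n / q n` does not tend to zero, then by the
index law over `ℚ̄` the de Rham-Betti classes with algebraic coefficients are generated by finitely
many of them over classes with finite orbits; then all orbits are finite (the matrix coefficients form
a ring which is a finitely generated module).

The setting is that of the starting files: `W` is the Betti cohomology as a Weil cohomology theory on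
the class `𝒱` of varieties over `k = ℚ̄`, with coefficients `W.K = ℚ`; `Ψ` its Hodge structures; `D` the
de Rham cohomology, a subspace over `Alg W = ℚ̄` of the cohomology with complex coefficients; `pw X n`
is the product of `n + 1` copies of `X`.
-/

open CategoryTheory AlgebraicGeometry Filter Topology

universe u

namespace Pool.Agent.Results.MP_cbf1af_ag.AlgebraicCoefficientClasses

open Pool.Agent.H914 Pool.Agent.H914.VarClass Pool.Agent.H914.VarClass.Obj
  Pool.Agent.H914.WeilCohomology Pool.Agent.Y133.Per Pool.Agent.Y133.Hdg Pool.Agent.R920.MT
  Pool.Agent.R920.DB Pool.Agent.H36AC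
open Pool.Agent.Y133.Half (pw dimBy)

variable {k : Type u} [Field k] {𝒱 : VarClass k} {ops : CycleOps 𝒱}

/-- The field of the complex numbers which are algebraic over the field `W.K = ℚ` of coefficients. -/
noncomputable abbrev Alg (W : WeilCohomology.{u, 0} ops) [Algebra W.K ℂ] :
    IntermediateField W.K ℂ := algebraicClosure W.K ℂ

/-- The class is a Hodge class and a de Rham-Betti class. -/
def IsBoth {W : WeilCohomology.{u, 0} ops} [Algebra W.K ℝ] [Algebra W.K ℂ] (Ψ : HodgeStr W)
    (D : DeRham W (Alg W).toSubfield) (Z : 𝒱.Obj) (j : ℕ) (c : W.H Z) : Prop :=
  IsHodge Ψ Z j c ∧ IsDRB D Z j c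

/-- On all powers of `X` all de Rham-Betti classes with algebraic coefficients are combinations with
algebraic coefficients of rational classes with the property `P`. -/
def AllCombs {W : WeilCohomology.{u, 0} ops} [Algebra W.K ℂ] (D : DeRham W (Alg W).toSubfield)
    (X : 𝒱.Obj) (P : ∀ Z : 𝒱.Obj, ℕ → W.H Z → Prop) : Prop :=
  ∀ n j α, IsDRBWith D (Alg W) (pw X n) j α → IsComb (Alg W) {c | P (pw X n) j c} α

/-- On all powers of `X` all classes with the property `P` have the property `Q`. -/
def AllAre {W : WeilCohomology.{u, 0} ops} (X : 𝒱.Obj) (P Q : ∀ Z : 𝒱.Obj, ℕ → W.H Z → Prop) :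
    Prop :=
  ∀ n j c, P (pw X n) j c → Q (pw X n) j c

/-- The quotients `a n / b n` tend to zero. -/
def Negligible (a b : ℕ → ℕ) : Prop := Tendsto (fun n => (a n : ℝ) / b n) atTop (𝓝 0)

/-- **The zero-one law for de Rham-Betti classes with algebraic coefficients.** -/
theorem result (W : WeilCohomology.{u, 0} ops) [Algebra W.K ℝ] [Algebra W.K ℂ] (Ψ : HodgeStr W)
    (D : DeRham W (Alg W).toSubfield) (hD : IsGraded D) (X : 𝒱.Obj) [Nontrivial (W.H X)]
    (b m q : ℕ → ℕ) (hb : ∀ n, b n = dimBy W (IsBoth Ψ D) (pw X n))
    (hm : ∀ n, m n = dimBy W (IsMotivated W) (pw X n))
    (hq : ∀ n, q n = numWith D (Alg W) (pw X n)) :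
    (AllCombs D X (IsBoth Ψ D) ↔ ¬ Negligible b q) ∧ (¬ Negligible b q → b = q) ∧
    (¬ Negligible m q → AllCombs D X (IsBoth Ψ D)) ∧
    (AllAre X (IsHodge Ψ) (IsMotivated W) →
      (AllCombs D X (IsMotivated W) ↔ ¬ Negligible m q)) := by
  obtain rfl := funext hb
  obtain rfl := funext hm
  obtain rfl := funext hq
  have hF : ∀ a : ℂ, IsAlgebraic W.K a → a ∈ (Alg W).toSubfield := fun a ha =>
    mem_algebraicClosure_iff.2 ha
  have hF' : ∀ a : ℂ, IsAlgebraic (Alg W).toSubfield a → a ∈ (Alg W).toSubfield := by
    intro a ha
    have h1 : IsAlgebraic (Alg W) a := ha
    exact mem_algebraicClosure_iff.2 (h1.restrictScalars W.K)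
  have h := main Ψ D (Alg W) hF hF' hD X
  refine ⟨h.1, fun hn => ?_, h.2.1, h.2.2⟩
  funext n
  exact dimBy_eq_of_combs D (Alg W) (fun e => e.2) (P := Pool.Agent.H60ZO.hdPred Ψ D)
    (fun h => h.2) _ (h.1.2 hn n)

end Pool.Agent.Results.MP_cbf1af_ag.AlgebraicCoefficientClasses
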