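import Pool.Agent.H61AR.Main

/-!
# The period conjecture in growing degree and height at all roots of almost all polynomials, for all families

Let `Y(x)` be the period matrix of the fibre at `x` of a family of smooth projective varieties over an open subset of the
affine line, an analytic function on a connected open set `V` (rows: homology classes, columns: a basis of the algebraic
de Rham cohomology of the family). Let `B_x` be the fibre at `x` of the Zariski closure (over `ℂ`) of the graph of `Y`. It
contains all `γ Y(x)`, `γ` in the Zariski closure of the monodromy group. By the period conjecture the relations over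
number fields between the entries of the period matrices of the fibres at finitely many different algebraic points `x`
hold on the product of the `B_x` if these points are general enough (outside the Hodge loci of the powers of the family).
The problem file lists the statement that for every `δ` the points `s` at which the period matrix satisfies no relation of
degree at most `δ` over `κ(s)` beyond those of the generic fibre are dense.

We consider all the roots of an integral polynomial of degree `g` together, so for an irreducible polynomial all the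
conjugates of an algebraic number of degree `g`: the product of the fibres is the Weil restriction to `ℚ` of the fibre over
`ℚ(x)`. We prove that for almost all polynomials with coefficients at most `T` every relation between the period matrices
at all these points whose degree and whose field degree is at most `ω(T)` and whose height is at most `T ^ ω(T)`, where
`ω(T) → ∞`, holds on the product of the `B_x`. The coefficients of the relations may contain arbitrary given complex
numbers `ξ_0, ξ_1, …`, for instance powers of `π` or the periods of any given varieties. For the polynomials whose roots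
are in a compact position there are at most `C T ^ (g + ε)` exceptions, for every `ε > 0`.

There is no condition on the family except that `ℂ(x)` is algebraically closed in the field generated by `x` and the
periods; this holds if the Zariski closure of the monodromy group is connected, and nothing else has to be known about
this group. The matrix `Y` may also contain the periods of several families, of mixed families, or any other analytic
functions. The results of the starting library on all roots
(`MP_290158_ag.AllRootsOfPolynomials`, `MP_151840_nt.AllRootsInTheDisc` and others) are about algebraically independent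
functions (Legendre's family and some of its analogues, logarithms, modular functions).

The proof uses the covering theorem `Pool.Agent.X255.RH.excOn_cov` of the starting library (few exceptional polynomials for
regular systems of functions of all roots), `Pool.Agent.X255.NP.regM_prod` (products of regular systems are regular), and
an induction on the roots: a functional relation between the `Y(x_1), …, Y(x_g)` holds on the product of the `B_(x_i)`.
-/

set_option autoImplicit false

open Polynomial Filter Topology NumberField

namespace Pool.Agent.Results.MP_cbf1af_ag.AllRootsAllFamilies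

variable {H J : Type} [Fintype H] [DecidableEq H] [Fintype J] [DecidableEq J]

/-- The point with the coordinates `x` and the entries of the matrix `M`. -/
def point (x : ℂ) (M : Matrix H J ℂ) : Option (H × J) → ℂ := fun o => o.elim x fun q => M q.1 q.2

/-- The fibre `B_x` at `x` of the Zariski closure of the graph of `Y`: the matrices `M` such that `Q(x, M) = 0` for all
polynomials `Q` over `ℂ` with `Q(t, Y(t)) = 0` for all `t` in `V`. -/
def fibre (V : Set ℂ) (Y : ℂ → Matrix H J ℂ) (x : ℂ) : Set (Matrix H J ℂ) :=
  {M | ∀ Q : MvPolynomial (Option (H × J)) ℂ, (∀ t ∈ V, MvPolynomial.eval (point t (Y t)) Q = 0) →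
    MvPolynomial.eval (point x M) Q = 0}

/-- `Z` on `W` is obtained from `Y` on `V` by analytic continuation along a chain of connected sets. -/
inductive Continuation (V : Set ℂ) (Y : ℂ → Matrix H J ℂ) : Set ℂ → (ℂ → Matrix H J ℂ) → Prop
  | refl : Continuation V Y V Y
  | step (W W' D : Set ℂ) (Z Z' : ℂ → Matrix H J ℂ) : Continuation V Y W Z → IsPreconnected W' →
      (∀ a b, AnalyticOnNhd ℂ (fun x => Z' x a b) W') → IsOpen D → D.Nonempty → D ⊆ W → D ⊆ W' →
      (∀ x ∈ D, Z' x = Z x) → Continuation V Y W' Z'

/-- `γ` is a monodromy matrix: some analytic continuation of `Y` is `γ Y` on a nonempty open subset of `V`. -/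
def IsMonodromy (V : Set ℂ) (Y : ℂ → Matrix H J ℂ) (γ : Matrix H H ℂ) : Prop :=
  ∃ (W D : Set ℂ) (Z : ℂ → Matrix H J ℂ), Continuation V Y W Z ∧ IsOpen D ∧ D.Nonempty ∧ D ⊆ W ∧ D ⊆ V ∧
    ∀ x ∈ D, Z x = γ * Y x

/-- The Zariski closure of the set of the monodromy matrices. -/
def monodromyClosure (V : Set ℂ) (Y : ℂ → Matrix H J ℂ) : Set (Matrix H H ℂ) :=
  {g | ∀ R : MvPolynomial (H × H) ℂ, (∀ γ, IsMonodromy V Y γ → MvPolynomial.eval (fun q => γ q.1 q.2) R = 0) →
    MvPolynomial.eval (fun q => g q.1 q.2) R = 0}

/-- The value at `x` of a polynomial in the entries of `Y` with coefficients in `ℂ[x]`. -/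
noncomputable def valueAt (Y : ℂ → Matrix H J ℂ) (x : ℂ) (p : MvPolynomial (H × J) ℂ[X]) : ℂ :=
  MvPolynomial.eval₂ (Polynomial.evalRingHom x) (fun q => Y x q.1 q.2) p

/-- `ℂ(x)` is algebraically closed in the field generated by `x` and the entries of `Y` on `V`: if on some nonempty open
set `W ⊆ V` an analytic function `h` is a quotient of polynomials in `x` and the entries of `Y`, and is algebraic over
`ℂ(x)`, then it is a rational function of `x`. -/
def IsRegular (V : Set ℂ) (Y : ℂ → Matrix H J ℂ) : Prop :=
  ∀ (W : Set ℂ) (h : ℂ → ℂ) (P Q : MvPolynomial (H × J) ℂ[X]) (R : ℂ[X][X]), IsOpen W → W.Nonempty → W ⊆ V →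
    AnalyticOnNhd ℂ h W → R ≠ 0 → (∀ x ∈ W, valueAt Y x Q ≠ 0) → (∀ x ∈ W, valueAt Y x Q * h x = valueAt Y x P) →
    (∀ x ∈ W, (R.map (Polynomial.evalRingHom x)).eval (h x) = 0) →
    ∃ p q : ℂ[X], q ≠ 0 ∧ ∀ x ∈ W, q.eval x * h x = p.eval x

/-- The integral vectors `a = (a_0, …, a_g)` with `|a_i| ≤ T`. -/
noncomputable def box (g T : ℕ) : Finset (Fin (g + 1) → ℤ) := Fintype.piFinset fun _ => Finset.Icc (-(T : ℤ)) (T : ℤ)

/-- The polynomial `a_0 + a_1 x + … + a_g x^g`. -/
noncomputable def poly {g : ℕ} (a : Fin (g + 1) → ℤ) : ℂ[X] := ∑ i, C (a i : ℂ) * X ^ (i : ℕ)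

/-- The roots in `K` of the polynomial with the coefficients `a`. -/
noncomputable def rootsIn (K : Set ℂ) {g : ℕ} (a : Fin (g + 1) → ℤ) : Finset ℂ := by
  classical exact (poly a).roots.toFinset.filter fun z => z ∈ K

/-- The points `z` of `V` such that every point `w` which is not in `V` has distance at least `1 / (k + 1)` from `z`, or
`z` is not real and `w` is not nearer to `z` than the real line. These are all points of `V` at distance at least
`1 / (k + 1)` from the complement of `V`, and all nonreal points of `V` if the complement of `V` consists of real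
numbers. -/
def dom (V : Set ℂ) (k : ℕ) : Set ℂ :=
  {z | z ∈ V ∧ ∀ w, w ∉ V → (z.im ≠ 0 ∧ |z.im| ≤ ‖z - w‖) ∨ 1 / ((k : ℝ) + 1) ≤ ‖z - w‖}

/-- Every relation of degree at most `k` in each of the entries of the matrices `M r`, with coefficients
`∑_{b < k} ξ_b c_b`, where the `c_b` are integers of a number field of degree at most `k` all of whose conjugates are at
most `T ^ k`, also holds for all matrices `N r` in `B r`. -/
def Generic {R : Type} [Fintype R] [DecidableEq R] (B : R → Set (Matrix H J ℂ)) (ξ : ℕ → ℂ) (k : ℕ) (T : ℝ)
    (M : R → Matrix H J ℂ) : Prop :=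
  ∀ (F : Type) [Field F] [NumberField F], Module.finrank ℚ F ≤ k → ∀ (io : F →+* ℂ)
    (c : (R × (H × J) → Fin (k + 1)) → Fin k → 𝓞 F), (∀ l b (φ : F →+* ℂ), ‖φ (c l b : F)‖ ≤ T ^ k) →
    ∑ l, (∑ b : Fin k, ξ b * io (c l b : F)) * ∏ q, M q.1 q.2.1 q.2.2 ^ (l q : ℕ) = 0 →
    ∀ N : R → Matrix H J ℂ, (∀ r, N r ∈ B r) →
      ∑ l, (∑ b : Fin k, ξ b * io (c l b : F)) * ∏ q, N q.1 q.2.1 q.2.2 ^ (l q : ℕ) = 0

/-- The relations between the matrices `Y(x)`, for all the roots `x` in `K` of the polynomial with the coefficients `a`
together, hold on the product of the `B_x`. -/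
def GenericAtRoots (K V : Set ℂ) (Y : ℂ → Matrix H J ℂ) {g : ℕ} (ξ : ℕ → ℂ) (k : ℕ) (T : ℝ) (a : Fin (g + 1) → ℤ) :
    Prop :=
  Generic (fun x : {x // x ∈ rootsIn K a} => fibre V Y x) ξ k T fun x : {x // x ∈ rootsIn K a} => Y x

/-- The polynomial with the coefficients `a` has degree `g` and simple roots, and it is generic at its roots in
`dom V k`. -/
def Good (V : Set ℂ) (Y : ℂ → Matrix H J ℂ) {g : ℕ} (ξ : ℕ → ℂ) (k : ℕ) (T : ℝ) (a : Fin (g + 1) → ℤ) : Prop :=
  a (Fin.last g) ≠ 0 ∧ (poly a).Separable ∧ GenericAtRoots (dom V k) V Y ξ k T a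

/-- The polynomial has degree `g` and simple roots, the roots are of absolute value at most `R` and at distance at least
`η` from each other, and the roots in `V` are at distance at least `η` from the complement of `V`. -/
def Position (V : Set ℂ) (R η : ℝ) {g : ℕ} (a : Fin (g + 1) → ℤ) : Prop :=
  a (Fin.last g) ≠ 0 ∧ (poly a).Separable ∧ ∀ z, (poly a).eval z = 0 → ‖z‖ ≤ R ∧
    (∀ w, (poly a).eval w = 0 → w ≠ z → η ≤ ‖z - w‖) ∧ (z ∈ V → Metric.ball z η ⊆ V)

theorem tame (V : Set ℂ) (k : ℕ) : Pool.Agent.X255.RH.Tame (dom V k) V :=
  ⟨∅, 1 / ((k : ℝ) + 1), by positivity, fun R => by simp, fun z hz w hw => Or.inr (hz.2 w hw)⟩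

omit [Fintype H] [DecidableEq H] [Fintype J] [DecidableEq J] in
theorem cont_iff {V : Set ℂ} {Y : ℂ → Matrix H J ℂ} {W : Set ℂ} {Z : ℂ → Matrix H J ℂ} (h : Continuation V Y W Z) :
    Pool.Agent.H61AR.Ct V Y W Z := by
  induction h with
  | refl => exact Pool.Agent.H61AR.Ct.refl
  | step W W' D Z Z' _ h1 h2 h3 h4 h5 h6 h7 ih => exact Pool.Agent.H61AR.Ct.step W W' D Z Z' ih h1 h2 h3 h4 h5 h6 h7

theorem closure_sub {V : Set ℂ} {Y : ℂ → Matrix H J ℂ} {γ : Matrix H H ℂ} (h : γ ∈ monodromyClosure V Y) :
    γ ∈ Pool.Agent.H61AR.AlgMon V Y := by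
  intro R hR
  refine h R fun γ' hγ' => hR γ' ?_
  obtain ⟨W, D, Z, h1, h2⟩ := hγ'
  exact ⟨W, D, Z, cont_iff h1, h2⟩

open scoped Classical in
/-- **Period relations at all roots of almost all polynomials.** Let `Y` be an analytic matrix on the connected open set
`V`, such that `ℂ(x)` is algebraically closed in the field generated by `x` and the entries of `Y`.

0. The set `B_x` contains `Y(x)` and all `γ Y(x)`, `γ` in the Zariski closure of the monodromy.

1. For every degree `g ≥ 1` and all complex numbers `ξ_0, ξ_1, …` there is a function `ω(T) → ∞` such that among the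
`(2 T + 1)^(g + 1)` integral polynomials with coefficients at most `T` at most the proportion `1 / ω(T)` is not good.

2. For all `k`, `R`, `η > 0` and `ε > 0` there is `C` such that for all `T ≥ 1` there are at most `C T ^ (g + ε)` integral
polynomials with coefficients at most `T` in the position given by `R` and `η`, which are not generic (for `k`) at their
roots in `V`. -/
theorem result (V : Set ℂ) (hVo : IsOpen V) (hVc : IsPreconnected V) (Y : ℂ → Matrix H J ℂ)
    (hY : ∀ a b, AnalyticOnNhd ℂ (fun x => Y x a b) V) (hreg : IsRegular V Y) :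
    (∀ x ∈ V, Y x ∈ fibre V Y x ∧ ∀ γ ∈ monodromyClosure V Y, γ * Y x ∈ fibre V Y x) ∧
    ∀ (g : ℕ), 0 < g → ∀ ξ : ℕ → ℂ,
      (∃ ω : ℕ → ℕ, Tendsto ω atTop atTop ∧ Monotone ω ∧ ∀ T : ℕ,
        ω T * ((box g T).filter fun a => ¬ Good V Y ξ (ω T) T a).card ≤ (box g T).card) ∧
      ∀ (k : ℕ) (R η ε : ℝ), 0 < η → 0 < ε → ∃ C : ℝ, ∀ T : ℕ, 1 ≤ T →
        (((box g T).filter fun a => Position V R η a ∧ ¬ GenericAtRoots V V Y ξ k T a).card : ℝ) ≤
          C * (T : ℝ) ^ ((g : ℝ) + ε) :=
  ⟨fun x hx => ⟨fun _ hQ => hQ x hx, fun _ hγ => Pool.Agent.H61AR.orbit_sub hVc hY hx (closure_sub hγ)⟩,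
    fun _ hg ξ => ⟨Pool.Agent.H61AR.main_all hg hVc hVo (dom V) (tame V) hY hreg ξ,
      fun k R η ε hη hε => Pool.Agent.H61AR.main_eps hg hVc hVo hY hreg V ξ k R η ε hη hε⟩⟩

end Pool.Agent.Results.MP_cbf1af_ag.AllRootsAllFamilies
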