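import Pool.Agent.H60ZO.Main

/-!
# A zero-one law for the de Rham-Betti classes among the Hodge classes on the powers of a variety

Let `Y` be a smooth projective variety over a number field. If all Hodge classes on all powers of `Y`
are de Rham-Betti classes (the Hodge classes `c` of degree `2 j` such that `(2 π i) ^ j c` is in
the algebraic de Rham cohomology over the algebraic numbers), then the period matrices of `Y` are
points of torsors of the Mumford-Tate groups which are defined over the algebraic numbers, so that
`trdeg F_j(Y) ≤ dim MT(H^j(Y))` for all `j`. This half of the period conjecture is known for abelian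
varieties (Deligne).

We prove: either all Hodge classes on all powers of `Y` are de Rham-Betti classes, or the proportion of
the de Rham-Betti classes among the Hodge classes on `Y ^ n` tends to `0` as `n` tends to infinity.
(The proportion is the quotient of the dimensions of the spaces spanned by the classes of all
degrees.) In particular, if for some `ε > 0` and infinitely many `n` the motivated (for example the
algebraic) classes make up at least the proportion `ε` of the Hodge classes on `Y ^ n`, then all Hodge
classes on all powers of `Y` are de Rham-Betti classes.

The proof: let `R` be a class of cohomology classes stable under the usual operations, and let `Q`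
consist of the elements of `R` with finitely many conjugates under a family of semilinear
automorphisms of the cohomology with extended coefficients compatible with all operations. If the
proportion of `Q` in `R` does not tend to `0`, then by the index law `R` is generated over `Q` by
finitely many classes; so the coefficient functions of the classes in `R` form a finitely generated
module over the ring of the functions with finitely many values. This module is a ring because
external products multiply the coefficient functions. So the coefficient functions are integral
over the ring of the functions with finitely many values, hence have finitely many values, and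
`R = Q`. This is applied to the automorphisms of the cohomology with complex coefficients given by the
automorphisms of `ℂ` over the algebraic numbers, which fix the de Rham cohomology; complex numbers
with finitely many conjugates are algebraic.

The setting is that of the starting files: `W` is the Betti cohomology as a Weil cohomology theory on
the class `𝒱` of varieties over `k = ℚ̄`, `Ψ` its Hodge structures, `D` the de Rham cohomology, a
subspace over the field `F = ℚ̄` of the cohomology with complex coefficients, `pw X n` the product of
`n + 1` copies of `X`.
-/

open CategoryTheory AlgebraicGeometry Filter Topology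

universe u v

namespace Pool.Agent.Results.MP_cbf1af_ag.DeRhamBettiAmongHodge

open Pool.Agent.H914 Pool.Agent.H914.VarClass Pool.Agent.H914.VarClass.Obj
  Pool.Agent.H914.WeilCohomology Pool.Agent.Y133.Per Pool.Agent.Y133.Hdg Pool.Agent.R920.MT
  Pool.Agent.R920.DB
open Pool.Agent.Y133.Half (pw dimBy)

variable {k : Type u} [Field k] {𝒱 : VarClass k} {ops : CycleOps 𝒱}

/-- The class is a Hodge class and a de Rham-Betti class. -/
def IsBoth {W : WeilCohomology.{u, v} ops} [Algebra W.K ℝ] [Algebra W.K ℂ] (Ψ : HodgeStr W)
    {F : Subfield ℂ} (D : DeRham W F) (Z : 𝒱.Obj) (j : ℕ) (c : W.H Z) : Prop :=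
  IsHodge Ψ Z j c ∧ IsDRB D Z j c

/-- All Hodge classes on all powers of `X` are de Rham-Betti classes. -/
def HodgeAreDRB {W : WeilCohomology.{u, v} ops} [Algebra W.K ℝ] [Algebra W.K ℂ] (Ψ : HodgeStr W)
    {F : Subfield ℂ} (D : DeRham W F) (X : 𝒱.Obj) : Prop :=
  ∀ n j c, IsHodge Ψ (pw X n) j c → IsDRB D (pw X n) j c

/-- The quotients `a n / b n` tend to zero. -/
def Negligible (a b : ℕ → ℕ) : Prop := Tendsto (fun n => (a n : ℝ) / b n) atTop (𝓝 0)

/-- **The zero-one law.** -/
theorem result (W : WeilCohomology.{u, v} ops) [Algebra W.K ℝ] [Algebra W.K ℂ] (Ψ : HodgeStr W)
    {F : Subfield ℂ} (hF : ∀ a : ℂ, IsAlgebraic F a → a ∈ F) (D : DeRham W F) (hD : IsGraded D)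
    (X : 𝒱.Obj) [Nontrivial (W.H X)] (b h m : ℕ → ℕ)
    (hb : ∀ n, b n = dimBy W (IsBoth Ψ D) (pw X n))
    (hh : ∀ n, h n = dimBy W (IsHodge Ψ) (pw X n))
    (hm : ∀ n, m n = dimBy W (IsMotivated W) (pw X n)) :
    (HodgeAreDRB Ψ D X ↔ ¬ Negligible b h) ∧ (¬ Negligible m h → HodgeAreDRB Ψ D X) := by
  obtain rfl := funext hb
  obtain rfl := funext hh
  obtain rfl := funext hm
  exact Pool.Agent.H60ZO.mainB Ψ hF D hD X

end Pool.Agent.Results.MP_cbf1af_ag.DeRhamBettiAmongHodge
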