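import Pool.Agent.H67Mid.Av

set_option autoImplicit false

/-!
# Products of abelian varieties of middle exterior type and an arbitrary de Rham-Betti object

Let `A i`, `i ∈ I`, be a family of abelian varieties over the field `ℚ̄` of algebraic numbers (the set `I`
may be infinite) which are of middle exterior type (`MiddleExterior`): the space `H_1(A i, ℂ)` is a sum
of copies of the tensor product, over `k i` colours, of the middle exterior powers
`Λ ^ m (ℂ ^ {2 m})`, `m = m i`, and the Lie algebra `𝔤 i` of the Hodge group is contained in the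
sum of the `k i` Lie algebras `sl(2 m)` and is irreducible on this tensor product. If `k i ≥ 2` we
also assume that `𝔤 i` has no ideals over `ℚ` (`Simple`; this is part of the usual definitions, and it
is automatic for Hodge groups, since the complex structure is in only one of the factors over `ℝ`).
Let `V` be **any** de Rham-Betti object over `ℚ̄`, for example the realization of any André motive.

Examples of abelian varieties of middle exterior type:
* `m = 1`, `k = 1`: elliptic curves without complex multiplication, and abelian surfaces with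
  quaternionic multiplication;
* `m = 1`: the abelian varieties of Mumford (`k = 3`, dimension four), and their generalizations (the
  corestriction of a quaternion algebra over a totally real field of degree `k`);
* `m = 2`, `k = 1`: abelian varieties of dimension six with a definite quaternion algebra over `ℚ` as the
  algebra of endomorphisms (Albert's type III);
* the families of Satake: unitary groups of signature `(1, 2 m - 1)` at one place, which act on the
  middle exterior powers.

**Theorem.** For every de Rham-Betti structure `U` of any rank `d` there is a set `E U` of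
*exceptional* indices such that
* (a) `E U` is empty if `U` is of CM type (`IsCM`);
* (b) `E U` is finite up to isogeny: if `S` is a finite subset of `E U` such that there are no
  homomorphisms between `A i` and `A j` for different elements `i`, `j` of `S`, then the sum over `S`
  of the dimensions `k i * (4 * m i ^ 2 - 1)` of the Lie algebras `𝔤 i` is at most `d ^ 2 - 1`;
* (c) for all finite families `A' a` of the `A i` (the same `A i` may occur several times, and the
  members may be isogenous) and all finite families `V j` which are built from structures for which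
  the `A' a` are not exceptional (`Built`), the Hodge group of `∏ A' a` splits off from the
  period torsor of `V = ⊕ V j` (`TorsorSplits`):
  let `G` be an algebraic subgroup of `GL(M_B)`, `M = h¹(∏ A' a) ⊕ V`, defined over `ℚ`, such that the
  comparison isomorphism of `M` is a point of a torsor of `G` over `ℚ̄` (`HasPoint`). Then
  1. `G` contains the group `Hg(∏ A' a) × 1`, where `Hg(∏ A' a)` is the Hodge group of `∏ A' a`, and `1`
    is the trivial group acting on `V` (`hodgeGroup`);
  2. for every nonzero complex number `z` there is an element of `G` which acts on `H¹(∏ A' a)` by the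
    Hodge structure `h(z)`. So the projection of `G` to `GL(H¹(∏ A' a))` contains the Mumford-Tate
    group of `∏ A' a`. (If there are no `V j`, then `G` itself contains the Mumford-Tate group.)

Nothing is assumed about periods: `AbVar` is the description of an abelian variety over `ℚ̄` by theta
functions (see `Pool/Agent/Y102/AVDefs.lean`, where it is explained why every abelian variety has it),
`dR` are its periods, and the transcendence theorems which are used (the theorem of Schneider and Lang
and the transcendence of `π`) are proved in this repository. The Lie algebra `𝔤` is defined by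
`InLie`: it consists of the endomorphisms of `H_1(A, ℚ)` which annihilate all classes that are Hodge
classes and de Rham-Betti classes.

## What this says about the period conjecture

Grothendieck's conjecture for a smooth projective variety `Y` and all `j` implies that every algebraic
group `G` over `ℚ` (even over `ℚ̄`) which has a torsor over `ℚ̄` that contains the comparison
isomorphism (the period matrix) contains the Mumford-Tate group: the Zariski closure of the period
matrix over `ℚ̄` is contained in each such torsor, and it has the dimension of the Mumford-Tate group.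
This is the torsor form of the conjecture; it does not give the degree of transcendence. It is proved
here, with the coefficients `ℚ`, for all products of abelian varieties of middle exterior type, and
the theorem shows how these abelian varieties split off from any other motive `V`.

## What this says about `Ω^dRB = Ω^And`

Let `G_dRB(M)` be the smallest group `G` as in (c), the group of the torsor `Ω^dRB_M`, and let `Ω^And_M`
be the torsor of the motivated periods. By the theorems of Deligne
(Hodge classes on abelian varieties are absolute) and André (they are motivated) the group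
`G_And(∏ A' a)` is the Mumford-Tate group.
* For all motives `M` in the tensor category generated by the motives `h¹` of **all** abelian
  varieties over `ℚ̄` of middle exterior type (for all `k` and `m` at the same time), the Tate motive,
  and any motive of CM type for which the equality holds, we have `Ω^dRB_M = Ω^And_M`.
* Let `N` be an André motive whose realization is `V`, with `ℚ(1)` in `⟨N⟩`, and let the `A' a` be not
  exceptional for `N`. The kernel of `G_And(h¹(∏ A' a) ⊕ N) → G_And(N)` is contained in
  `Hg(∏ A' a) × 1`, and `G_dRB` contains this group and is mapped onto `G_dRB(N)`. Therefore the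
  equality `Ω^dRB = Ω^And` holds for `h¹(∏ A' a) ⊕ N` if and only if it holds for `N`. By (b) this
  is so for all but finitely many isogeny classes of simple abelian varieties of middle exterior type,
  for every `N`, with an explicit bound for the exceptions, and by (a) for all of them if `N` is of CM
  type. The bound in (b) is attained: if `U` is `h¹` of an elliptic curve without complex
  multiplication, then both sides are three.

## Relation to the files of the library

* `MiddleExteriorMotives` (two files, by helper166 and helper113) is the case of one `A` (and its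
  powers) without `V`. New are: products of several such abelian varieties without any condition on
  the Hodge groups of the factors, which may be isomorphic (as algebraic groups over `ℚ`, or over `ℂ`);
  and the object `V`.
* `MP_470b79_ag.SplitTorsors` (by helper192) is the analogous theorem for abelian varieties of spin type
  with `r` at least six, and at most one `A' a` with `r = 3` or `r = 4`. The case `m = 1` is the case
  `r = 3`; so already two abelian varieties of Mumford's type, or two elliptic curves and `V`, are new
  (the products of elliptic curves without `V` are due to Kreutz, Shen and Vial). The middle exterior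
  powers with `m ≥ 2` are not spin representations. The structure of the argument (the Lie algebra
  generated by the periods of all structures, the set `E U`, the closure of the class of the
  structures from which `A i` splits off) is the one of `SplitTorsors`.

## Proof

The Lie algebra of `G` contains the components over `ℚ` of the logarithmic derivatives of the
matrix of periods, for all derivations of `ℂ` over `ℚ̄` (`PtW.nn_mem`), and so the Lie algebra
generated by them. We show that it contains the endomorphism which defines the Hodge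
structure of `∏ A' a` and acts on `V` by zero (`Gd.J_mem`), and an element which acts on
`H¹(∏ A' a)` as a nonzero scalar, by the transcendence of `π`.

By the theorem of Schneider and Lang and the theorem on the subalgebras of `sl(2 m) ^ k` in
`MiddleExteriorMotives` the image of the Lie algebra in each `A i` is `𝔤 i`, and `𝔤 i ⊗ ℂ` is the
sum of the `k i` Lie algebras `sl(2 m)`. By the lemmas of Goursat and Ribet one has to consider the pairs
for which the image in `𝔤 i × 𝔤 i'` is the graph of an isomorphism `θ` (`Linked`). We show
(`Lm.exists_T`) that there is a nonzero linear map `T : H_1(A i, ℂ) → H_1(A i', ℂ)` with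
`θ(X) T = T X`:
* the element `e_p = 2 E_pp - 1 / m` of `sl(2 m)` acts on `Λ ^ m` as an involution, the elements
  `e_p` generate a Cartan subalgebra. The element `Y = θ(e_p)` satisfies `(ad Y) ^ 3 = 4 ad Y`, and all
  elements `X` with `[Y, X] = 2 X` satisfy `[X, [X, Z]] ∈ ℂ X` for all `Z`. From this we show that `Y`, or
  `- Y`, is conjugate to some `e_q` (`main_min`): `Y` is of one colour, and of the form `2 R - 1 / m` with
  a projection `R` of rank one. By a computation with creation and annihilation operators `θ(e_p)`
  is again an involution (`rho_idem`).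
* so the composition of `θ` with the representation on `H_1(A i', ℂ)` is a representation of
  `sl(2 m) ^ k` in which all `e_p` are involutions. Such a representation contains the same vectors
  of highest weight as `Λ ^ m (ℂ ^ {2 m})`, up to multiplicity (`Rp.exists_top`), and there is a
  homomorphism from every representation with this property to every other one (`exists_int`).
Over `ℚ` we obtain a nonzero homomorphism of de Rham-Betti structures from `A i` to `A i'`; it
respects the Hodge structures. So `θ` respects the complex structures, and this is enough for (c).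

For (b), there are no common quotients of two of the `A i`, `i ∈ S`, by the last argument. Since
`𝔤 i` has no ideals, all elements of the Lie algebra (with trivial twist) which act trivially on `U`
act trivially on `A i` for `i ∈ S`. So a subspace of `sl(d)` is mapped onto the sum of
the `𝔤 i`, `i ∈ S`.
-/

open Module Matrix Pool.Agent.Y102 Pool.Agent.W516.DR Pool.Agent.H204R3.GP

noncomputable section

namespace Pool.Agent.Results.MP_cbf1af_ag.SplitMiddleExterior

/-- The period `(2 π i) ^ w` of the Tate twist. -/
def twist (w : ℤ) : ℂ := (2 * Real.pi * Complex.I) ^ w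

section AV

variable {g : ℕ} (A : AbVar g)

/-- The multilinear forms in `2m` variables in the rational homology. -/
abbrev Form (m : ℕ) : Type := MultilinearMap ℚ (fun _ : Fin m × Fin 2 => A.H1) ℚ

/-- The endomorphism `X` annihilates the form `φ` (as a derivation). -/
def Annihilates {m : ℕ} (X : Module.End ℚ A.H1) (φ : Form A m) : Prop :=
  ∀ v, ∑ k, φ (Function.update v k (X (v k))) = 0

/-- `X` is in the Lie algebra `𝔤`: it annihilates all classes in `H^1(A) ^ {⊗ 2m} (m)` that are Hodge
classes and de Rham-Betti classes. -/
def InLie (X : Module.End ℚ A.H1) : Prop :=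
  ∀ (m : ℕ) (φ : Form A m), IsHodgeTensor (A.per : A.H1 →+ (Fin g → ℂ)) φ →
    IsDeRhamBettiForm QBar A.dR (2 * Real.pi * Complex.I) m φ → Annihilates A X φ

/-- The algebra of the endomorphisms of `H_1(A, ℂ)`, as matrices for the basis of the lattice. -/
abbrev EndC (_ : AbVar g) : Type := Matrix (Fin (2 * g)) (Fin (2 * g)) ℂ

/-- The matrix of the extension of an endomorphism of `H_1(A, ℚ)` to `H_1(A, ℂ)`. -/
def toC (X : Module.End ℚ A.H1) : EndC A := Matrix.of fun i j => (X (Pi.single j 1) i : ℂ)

/-- The complex Lie algebra `𝔤 ⊗ ℂ`, acting on `H_1(A, ℂ)`. -/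
def lieC : Submodule ℂ (EndC A) := Submodule.span ℂ {Y | ∃ X, InLie A X ∧ Y = toC A X}

/-- The canonical anticommutation relations for the creation operators `a σ i` and the annihilation
operators `b σ i` on a space `ℂ ^ N` (a Fock space: a sum of copies of the tensor product over the
colours `σ` of the exterior algebras of `ℂ ^ n`). -/
def Car {k n N : ℕ} (a b : Fin k → Fin n → Matrix (Fin N) (Fin N) ℂ) : Prop :=
  (∀ σ i τ j, a σ i * a τ j = -(a τ j * a σ i)) ∧
  (∀ σ i τ j, b σ i * b τ j = -(b τ j * b σ i)) ∧
  ∀ σ i τ j, a σ i * b τ j + b τ j * a σ i = if σ = τ ∧ i = j then 1 else 0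

/-- The action on the Fock space of the matrix `x`, an element of the Lie algebra `gl(n)` with the
colour `σ`. -/
def act {k n N : ℕ} (a b : Fin k → Fin n → Matrix (Fin N) (Fin N) ℂ) (σ : Fin k)
    (x : Matrix (Fin n) (Fin n) ℂ) : Matrix (Fin N) (Fin N) ℂ :=
  ∑ i, ∑ j, x i j • (a σ i * b σ j)

/-- **Middle exterior type.** There is a Fock space `ℂ ^ N` with `k` colours and `2 m` modes for each
colour such that `H_1(A, ℂ)` is isomorphic (by `Q`, with the left inverse `P`) to the part of it on
which the number of the particles is `m` for each colour. The Lie algebra `𝔤 ⊗ ℂ` is contained in the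
sum of the `k` Lie algebras `sl(2 m)`, acting on this part, and the associative algebra which it
generates contains the operators given by `a σ i * b σ j`. -/
def MiddleExterior (k m : ℕ) : Prop :=
  ∃ (N : ℕ) (a b : Fin k → Fin (2 * m) → Matrix (Fin N) (Fin N) ℂ)
    (P : Matrix (Fin (2 * g)) (Fin N) ℂ) (Q : Matrix (Fin N) (Fin (2 * g)) ℂ),
    Car a b ∧ P * Q = 1 ∧
    (∀ v, (∃ u, v = Q.mulVec u) ↔ ∀ σ, (act a b σ 1).mulVec v = (m : ℂ) • v) ∧
    lieC A ≤ Submodule.span ℂ {Y | ∃ σ x, Matrix.trace x = 0 ∧ Y = P * act a b σ x * Q} ∧
    ∀ σ i j, P * (a σ i * b σ j) * Q ∈ Algebra.adjoin ℂ (lieC A : Set (EndC A))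

/-- `N` is an ideal of the Lie algebra `𝔤`. -/
def IsIdeal (N : Submodule ℚ (Module.End ℚ A.H1)) : Prop :=
  ∀ Y ∈ N, InLie A Y ∧ ∀ X, InLie A X → X * Y - Y * X ∈ N

/-- The Lie algebra `𝔤` has no ideals except zero and `𝔤`. -/
def Simple : Prop :=
  ∀ N, IsIdeal A N → ∀ Y ∈ N, Y ≠ 0 → ∀ X, InLie A X → X ∈ N

variable {A}

theorem Simple.noIdeals (h : Simple A) : Pool.Agent.N192.GP.NoIdeals A.NA := by
  intro N hN
  have h1 := h N fun Y hY => ⟨hN.1 hY, fun X hX => hN.2 X hX Y hY⟩
  by_cases h0 : N = ⊥
  · exact Or.inl h0
  · obtain ⟨Y, hY, hY0⟩ := (Submodule.ne_bot_iff N).1 h0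
    exact Or.inr (le_antisymm hN.1 fun X hX => h1 Y hY hY0 X hX)

theorem MiddleExterior.nice {k m : ℕ} (h : MiddleExterior A k m) (hs : 2 ≤ k → Simple A) :
    Pool.Agent.H67M.Nice A k m := by
  obtain ⟨N, a, b, P, Q, ⟨h1, h2, h3⟩, h4, h5, h6, h7⟩ := h
  exact Pool.Agent.H67M.nice_of (A := A) (a := a) (b := b) (P' := P) (Q' := Q) h1 h2 h3 h4 h5
    h6 h7 fun hk => (hs hk).noIdeals

end AV

/-- A de Rham-Betti structure of rank `d` over `ℚ̄`: the Betti side is the dual of `ℚ ^ d`, and the
de Rham side is given by a basis, whose elements are considered as linear functions on `ℚ ^ d` with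
complex values (the periods are the values on the rational vectors); the independence means that the
comparison is an isomorphism. -/
structure Structure (d : ℕ) where
  /-- the basis of the de Rham side -/
  dR : Fin d → ((Fin d → ℚ) →ₗ[ℚ] ℂ)
  indep : LinearIndependent ℂ dR

section Structures

variable {d d' d'' : ℕ}

/-- `B` is a de Rham-Betti class in `V' ⊗ V (w)`. -/
def IsPairing (V' : Structure d') (V : Structure d) (w : ℤ)
    (B : (Fin d' → ℚ) →ₗ[ℚ] (Fin d → ℚ) →ₗ[ℚ] ℚ) : Prop :=
  ∃ b : Fin d' → Fin d → QBar, ∀ u v,
    twist w * (B u v : ℂ) = ∑ i, ∑ j, algebraMap QBar ℂ (b i j) * (V'.dR i u * V.dR j v)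

/-- `f` is (the transpose of) a homomorphism of de Rham-Betti structures from `V` to `V'`. -/
def IsHom (V' : Structure d') (V : Structure d) (f : (Fin d' → ℚ) →ₗ[ℚ] (Fin d → ℚ)) : Prop :=
  ∃ a : Fin d → Fin d' → QBar, ∀ i u, V.dR i (f u) = ∑ j, algebraMap QBar ℂ (a i j) * V'.dR j u

/-- `β` is (the transpose of) a homomorphism from `V` to `V' ⊗ V'' (w)`. -/
def IsBilinear (V' : Structure d') (V'' : Structure d'') (V : Structure d) (w : ℤ)
    (β : (Fin d' → ℚ) →ₗ[ℚ] (Fin d'' → ℚ) →ₗ[ℚ] (Fin d → ℚ)) : Prop :=
  ∃ b : Fin d → Fin d' → Fin d'' → QBar, ∀ i u v, twist w * V.dR i (β u v) =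
    ∑ j, ∑ k, algebraMap QBar ℂ (b i j k) * (V'.dR j u * V''.dR k v)

/-- `X` commutes with all de Rham-Betti endomorphisms. -/
def InCommutant (V : Structure d) (X : Module.End ℚ (Fin d → ℚ)) : Prop :=
  ∀ P, IsDeRhamBettiEnd QBar V.dR P → ∀ u, X (P u) = P (X u)

/-- The structure `V` is of CM type: all endomorphisms of the vector space which commute with the
de Rham-Betti endomorphisms commute with each other. -/
def IsCM (V : Structure d) : Prop :=
  ∀ X Y, InCommutant V X → InCommutant V Y → ∀ u, X (Y u) = Y (X u)

/-- The smallest class of de Rham-Betti structures which contains the structures with the property `P`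
and is closed under subobjects, quotients and extensions (`middle`: `V'' → V → V'` is exact in the
middle), tensor products and Tate twists (`tensor`: `V` is a subobject of `V' ⊗ V'' (w)`) and duals. -/
inductive Built (P : ∀ d : ℕ, Structure d → Prop) : ∀ {d : ℕ}, Structure d → Prop
  | base {d : ℕ} {V : Structure d} (h : P d V) : Built P V
  | middle {d d' d'' : ℕ} {V' : Structure d'} {V : Structure d} {V'' : Structure d''}
      (f : (Fin d' → ℚ) →ₗ[ℚ] (Fin d → ℚ)) (p : (Fin d → ℚ) →ₗ[ℚ] (Fin d'' → ℚ))
      (hf : IsHom V' V f) (hp : IsHom V V'' p) (hex : ∀ u, p u = 0 → ∃ u', f u' = u)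
      (h' : Built P V') (h'' : Built P V'') : Built P V
  | tensor {d d' d'' : ℕ} {V' : Structure d'} {V'' : Structure d''} {V : Structure d} (w : ℤ)
      (β : (Fin d' → ℚ) →ₗ[ℚ] (Fin d'' → ℚ) →ₗ[ℚ] (Fin d → ℚ)) (hβ : IsBilinear V' V'' V w β)
      (hs : Submodule.span ℚ {x | ∃ u v, β u v = x} = ⊤)
      (h' : Built P V') (h'' : Built P V'') : Built P V
  | dual {d d' : ℕ} {V' : Structure d'} {V : Structure d} (w : ℤ)
      (B : (Fin d' → ℚ) →ₗ[ℚ] (Fin d → ℚ) →ₗ[ℚ] ℚ) (hB : IsPairing V' V w B)
      (hn : ∀ v, (∀ u, B u v = 0) → v = 0) (h' : Built P V') : Built P V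

/-- The structure as a member of the family of all structures. -/
def toU (V : Structure d) : Pool.Agent.N192.GP.UU := ⟨d, ⟨V.dR, V.indep⟩⟩

/-- Perfect Lie algebras split off from structures of CM type. -/
theorem IsCM.sep {s : Pool.Agent.N192.GP.UU}
    (hperf : Pool.Agent.N192.GP.ggU s ≤
      Pool.Agent.N192.GP.brk (Pool.Agent.N192.GP.ggU s) (Pool.Agent.N192.GP.ggU s))
    {V : Structure d} (h : IsCM V) : Pool.Agent.N192.GP.SepU s (toU V) :=
  Pool.Agent.H67M.sepU_cm hperf fun X Y hX hY => LinearMap.ext (h X Y
    (fun P hP u => LinearMap.congr_fun (hX P hP) u)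
    fun P hP u => LinearMap.congr_fun (hY P hP) u)

/-- The structures from which a perfect Lie algebra splits off form a class which is closed under the
constructions. -/
theorem Built.sep {s : Pool.Agent.N192.GP.UU} {P : ∀ d : ℕ, Structure d → Prop}
    (hperf : Pool.Agent.N192.GP.ggU s ≤
      Pool.Agent.N192.GP.brk (Pool.Agent.N192.GP.ggU s) (Pool.Agent.N192.GP.ggU s))
    (hP : ∀ (d : ℕ) (U : Structure d), P d U → Pool.Agent.N192.GP.SepU s (toU U))
    {V : Structure d} (h : Built P V) : Pool.Agent.N192.GP.SepU s (toU V) := by
  induction h with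
  | base h => exact hP _ _ h
  | @middle _ _ _ V₁ V V₂ f p hf hp hex _ _ ih' ih'' =>
    exact Pool.Agent.N192.GP.sepU_middle (V' := toU V₁) (V := toU V) (V'' := toU V₂)
      hperf hf hp hex ih' ih''
  | @tensor _ _ _ V₁ V₂ V w β hβ hs' _ _ ih' ih'' =>
    exact Pool.Agent.N192.GP.sepU_tensor (V' := toU V₁) (V'' := toU V₂) (V := toU V)
      hperf hβ hs' ih' ih''
  | @dual _ _ V₁ V w B hB hn _ ih' =>
    exact Pool.Agent.N192.GP.sepU_dual (V' := toU V₁) (V := toU V) hperf hB hn ih'

end Structures

section Family

variable {K J : Type} [Fintype K] [DecidableEq K] [Fintype J] [DecidableEq J]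
  {g : K → ℕ} (A : ∀ a, AbVar (g a)) {d : J → ℕ} (V : ∀ j, Structure (d j))

/-- The basis of the Betti realization of `h¹(∏ A a) ⊕ V`: the dual of the bases of the lattices, and the
basis of `V j`. -/
abbrev Row (g : K → ℕ) (d : J → ℕ) : Type := (Σ a, Fin (2 * g a)) ⊕ (Σ j, Fin (d j))

/-- The basis of the de Rham realization of `h¹(∏ A a) ⊕ V`. -/
abbrev Col (g : K → ℕ) (d : J → ℕ) : Type := (Σ a, Fin (g a) ⊕ Fin (g a)) ⊕ (Σ j, Fin (d j))

/-- The matrix of periods of the abelian variety `A`: the differential forms of the basis of
`H¹_dR(A / ℚ̄)` are integrated over the basis of the lattice. -/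
def periodsA {g : ℕ} (A : AbVar g) : Matrix (Fin (2 * g)) (Fin g ⊕ Fin g) ℂ :=
  Matrix.of fun p q => A.dR q (Pi.single p 1)

/-- The matrix of periods of `V`. -/
def periodsV {d : ℕ} (V : Structure d) : Matrix (Fin d) (Fin d) ℂ :=
  Matrix.of fun p q => V.dR q (Pi.single p 1)

/-- The matrix of the comparison isomorphism of `h¹(∏ A a) ⊕ V`. -/
def periods : Matrix (Row g d) (Col g d) ℂ :=
  fromBlocks (blockDiagonal' fun a => periodsA (A a)) 0 0 (blockDiagonal' fun j => periodsV (V j))

/-- A subgroup of `GL_R(ℂ)` defined by polynomials with rational coefficients. -/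
def IsAlgebraicSubgroup {R : Type} [Fintype R] [DecidableEq R] (G : Subgroup (GL R ℂ)) : Prop :=
  ∃ S : Set (MvPolynomial (R × R) ℚ), ∀ x : GL R ℂ, x ∈ G ↔
    ∀ p ∈ S, MvPolynomial.aeval (fun b : R × R => (x : Matrix R R ℂ) b.1 b.2) p = 0

/-- The matrix `P` belongs to a torsor `G · T⁻¹` of `G` defined over `ℚ̄`. -/
def HasPoint {R C : Type} [Fintype R] [DecidableEq R] [Fintype C] (P : Matrix R C ℂ)
    (G : Subgroup (GL R ℂ)) : Prop :=
  ∃ T : Matrix C R ℂ, (∀ i j, IsAlgebraic ℚ (T i j)) ∧ ∃ x ∈ G, (x : Matrix R R ℂ) = P * T

/-- The Hodge structure of `H¹(A)`: the complex number `z` acts on `H_1(A, ℝ) = ℂ ^ g` by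
multiplication, and on `H¹(A, ℝ)` by the transposed map, here in the basis of `H¹(A, ℚ)` which is
dual to the basis of the lattice. -/
def hodge {g : ℕ} (A : AbVar g) (z : ℂ) : Matrix (Fin (2 * g)) (Fin (2 * g)) ℂ :=
  Matrix.of fun i j => ((A.lam.repr (z • A.lam i) j : ℝ) : ℂ)

/-- The group `Hg(∏ A a) × 1`: the smallest algebraic group over `ℚ` which contains the action of the
complex numbers of absolute value one on `H¹(∏ A a)`, acting trivially on `V`. -/
def hodgeGroup (d : J → ℕ) : Subgroup (GL (Row g d) ℂ) :=
  sInf {G | IsAlgebraicSubgroup G ∧ ∀ z : ℂ, ‖z‖ = 1 → ∃ x ∈ G,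
    (x : Matrix (Row g d) (Row g d) ℂ) = fromBlocks (blockDiagonal' fun a => hodge (A a) z) 0 0 1}

/-- The Hodge group of `∏ A a` splits off from the period torsor of `V = ⊕ V j`. -/
def TorsorSplits : Prop :=
  ∀ G : Subgroup (GL (Row g d) ℂ), IsAlgebraicSubgroup G → HasPoint (periods A V) G →
    hodgeGroup A d ≤ G ∧ ∀ z : ℂ, z ≠ 0 → ∃ x ∈ G, ∃ v,
      (x : Matrix (Row g d) (Row g d) ℂ) =
        fromBlocks (blockDiagonal' fun a => hodge (A a) z) 0 0 v

/-- The main step. -/
theorem torsorSplits {k m : K → ℕ} (hn : ∀ i, Pool.Agent.H67M.Nice (A i) (k i) (m i))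
    (hsep : ∀ i j, Pool.Agent.N192.GP.SepU ⟨2 * g i, Pool.Agent.N192.GP.DA A i⟩ (toU (V j))) :
    TorsorSplits A V := by
  intro G hG hP
  let V' : ∀ j, Pool.Agent.N192.GP.DRS (d j) := fun j => ⟨(V j).dR, (V j).indep⟩
  have hgood : Pool.Agent.H67M.Gd A V' k m :=
    ⟨hn, fun i j => Pool.Agent.N192.GP.sep_final (hsep i j)⟩
  obtain ⟨T, hT, x, hx, hxT⟩ := hP
  have hH := Pool.Agent.N192.GT.pt_of (A := A) (V := V') hG hT hx hxT
  refine ⟨sInf_le ⟨hG, fun z hz => ?_⟩, fun z hz => ?_⟩
  · obtain ⟨y, hy, hyz⟩ := Pool.Agent.H67M.rho_mem hgood hH hz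
    refine ⟨y, hy, hyz.trans ?_⟩
    unfold Pool.Agent.N192.GT.rho
    rw [one_smul]
    rfl
  · obtain ⟨v, y, hy, hyz⟩ := Pool.Agent.H67M.torus_mem hgood hH hz
    exact ⟨y, hy, v, hyz⟩

end Family

/-- There are no nonzero homomorphisms from `A` to `A'`: linear maps of the rational homology which
respect the Hodge structures and the de Rham structures. -/
def NoHom {g g' : ℕ} (A : AbVar g) (A' : AbVar g') : Prop :=
  ∀ f : A.H1 →ₗ[ℚ] A'.H1,
    (∃ Q : (Fin g → ℂ) →ₗ[ℂ] (Fin g' → ℂ), ∀ w, A'.per (f w) = Q (A.per w)) →
    (∃ a : (Fin g' ⊕ Fin g') → (Fin g ⊕ Fin g) → QBar, ∀ p w,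
      A'.dR p (f w) = ∑ q, algebraMap QBar ℂ (a p q) * A.dR q w) → f = 0

/-- **The exceptional abelian varieties of a de Rham-Betti structure.** -/
theorem result {I : Type} {g : I → ℕ} (A : ∀ i, AbVar (g i)) (k m : I → ℕ)
    (hmid : ∀ i, MiddleExterior (A i) (k i) (m i)) (hsimple : ∀ i, 2 ≤ k i → Simple (A i)) :
    ∃ E : ∀ d : ℕ, Structure d → Set I,
      (∀ (d : ℕ) (U : Structure d) (i : I), IsCM U → i ∉ E d U) ∧
      (∀ (d : ℕ) (U : Structure d) (S : Finset I), (∀ i ∈ S, i ∈ E d U) →
        (∀ i ∈ S, ∀ j ∈ S, i ≠ j → NoHom (A i) (A j)) →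
        ∑ i ∈ S, k i * (4 * m i ^ 2 - 1) ≤ d ^ 2 - 1) ∧
      ∀ {K J : Type} [Fintype K] [DecidableEq K] [Fintype J] [DecidableEq J] (e : K → I)
        {d : J → ℕ} (V : ∀ j, Structure (d j)),
        (∀ a j, Built (fun d U => e a ∉ E d U) (V j)) → TorsorSplits (fun a => A (e a)) V := by
  classical
  have hn : ∀ i, Pool.Agent.H67M.Nice (A i) (k i) (m i) := fun i => (hmid i).nice (hsimple i)
  have hperf : ∀ i, Pool.Agent.N192.GP.ggU ⟨2 * g i, Pool.Agent.N192.GP.DA A i⟩ ≤
      Pool.Agent.N192.GP.brk (Pool.Agent.N192.GP.ggU ⟨2 * g i, Pool.Agent.N192.GP.DA A i⟩)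
        (Pool.Agent.N192.GP.ggU ⟨2 * g i, Pool.Agent.N192.GP.DA A i⟩) := by
    intro i
    have h1 : Pool.Agent.N192.GP.ggU ⟨2 * g i, Pool.Agent.N192.GP.DA A i⟩ = (A i).NA :=
      Pool.Agent.H67M.Nice.ggU (I := Unit) (A := fun _ => A i) (i := ()) (hn i)
    rw [h1]
    exact (hn i).perf
  refine ⟨fun d U => {i | ¬Pool.Agent.N192.GP.SepU
    ⟨2 * g i, Pool.Agent.N192.GP.DA A i⟩ (toU U)}, fun d U i h h' => ?_, fun d U S hS hom => ?_,
    fun e d V hbuilt => ?_⟩
  · exact h' (h.sep (hperf i))
  · have h1 := Pool.Agent.H67M.exc_dim (I := S) (A := fun i : S => A i.1)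
      (k := fun i => k i.1) (m := fun i => m i.1) (fun i => hn i.1)
      (fun i i' hne f hf => hom i.1 i.2 i'.1 i'.2 (fun h => hne (Subtype.ext h)) f hf.1 hf.2)
      (U := ⟨U.dR, U.indep⟩) (fun i => hS i.1 i.2)
    rwa [Finset.sum_coe_sort S (fun i => k i * (4 * m i ^ 2 - 1))] at h1
  · exact torsorSplits (fun a => A (e a)) V (k := fun a => k (e a)) (m := fun a => m (e a))
      (fun a => hn (e a)) fun a j => (hbuilt a j).sep (hperf (e a)) fun d U hU => not_not.1 hU

end Pool.Agent.Results.MP_cbf1af_ag.SplitMiddleExterior
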